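import Mathlib

namespace Pool.Agent.Results.MP_389529_an.LinearGrowth

open Finset

variable {d : ℕ}

/-- step vectors -/
def v (d j : ℕ) : Fin d → ℂ := fun k => if j ≤ k.1 then 1 else 0

/-- freezing projections -/
noncomputable def Q (d i : ℕ) : (Fin d → ℂ) →L[ℂ] (Fin d → ℂ) :=
  ContinuousLinearMap.pi fun k => ContinuousLinearMap.proj ⟨min k.1 i, by omega⟩

/-- the multiplier with symbol `m` -/
noncomputable def F (d : ℕ) (m : ℕ → ℂ) : (Fin d → ℂ) →L[ℂ] (Fin d → ℂ) :=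
  m d • 1 + ∑ i ∈ range d, (m i - m (i + 1)) • Q d i

lemma norm_F (m : ℕ → ℂ) : ‖F d m‖ ≤ ‖m d‖ + ∑ i ∈ range d, ‖m i - m (i + 1)‖ := by
  have hQ : ∀ i, ‖Q d i‖ ≤ 1 := fun i => ContinuousLinearMap.opNorm_le_bound _ zero_le_one fun x =>
    (pi_norm_le_iff_of_nonneg (by positivity)).mpr fun k => by
      simpa [Q] using norm_le_pi_norm x _
  refine (norm_add_le _ _).trans (add_le_add ?_ ((norm_sum_le _ _).trans (sum_le_sum fun i _ => ?_)))
  · rw [norm_smul]; exact mul_le_of_le_one_right (norm_nonneg _) ContinuousLinearMap.norm_id_le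
  · rw [norm_smul]; exact mul_le_of_le_one_right (norm_nonneg _) (hQ i)

lemma F_v (m : ℕ → ℂ) {j : ℕ} (hj : j < d) : F d m (v d j) = m j • v d j := by
  funext k
  have h : ∀ n, j ≤ n → m n + ∑ i ∈ range n, (if j ≤ i then m i - m (i + 1) else 0) = m j := by
    intro n hn
    induction n, hn using Nat.le_induction with
    | base => rw [sum_eq_zero fun i hi => if_neg (by simpa using hi), add_zero]
    | succ n hn ih => rw [sum_range_succ, if_pos hn, ← ih]; ring
  by_cases hk : j ≤ k.1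
  · simpa [F, Q, v, hk] using h d hj.le
  · simp [F, Q, v, hk]

lemma ext_v {A B : (Fin d → ℂ) →L[ℂ] (Fin d → ℂ)} (h : ∀ j < d, A (v d j) = B (v d j)) :
    A = B := by
  have h' : ∀ j, A (v d j) = B (v d j) := fun j => by
    rcases lt_or_ge j d with hj | hj
    · exact h j hj
    · rw [show v d j = 0 from funext fun k => if_neg (by omega), map_zero, map_zero]
  refine ContinuousLinearMap.coe_injective ((Pi.basisFun ℂ _).ext fun k => ?_)
  have : Pi.basisFun ℂ (Fin d) k = v d k - v d (k + 1) := by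
    funext l
    simp only [Pi.basisFun_apply, v, Pi.sub_apply, Pi.single_apply, Fin.ext_iff]
    split_ifs <;> first | omega | simp
  simp [this, h']

lemma F_pow (m : ℕ → ℂ) (k : ℕ) {j : ℕ} (hj : j < d) :
    (F d m ^ k) (v d j) = m j ^ k • v d j := by
  induction k with
  | zero => simp
  | succ k ih => rw [pow_succ, mul_apply_eq_comp, F_v m hj, map_smul, ih, smul_smul,
      pow_succ']

/-- the potential -/
noncomputable def H (u w ρ x : ℝ) : ℝ :=
  4 * min (x / u) 1 - 8 * min (w / x) 1 + 2 * ((if w ≤ x then 1 else 0) + (if u < x then 1 else 0)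
    + (if 2 * ρ / 3 < x then 1 else 0) + (if 2 * ρ ≤ x then 1 else 0))

lemma step {u w ρ x y D δ ε : ℝ} (hu : 0 < u) (hw : 0 < w) (huw : u = w ^ 2) (hy : 0 < y)
    (h1 : y ≤ x ^ 2) (h2 : y ≤ x / 4) (d1 : D ≤ 2) (d2 : D ≤ (x + y) / u)
    (d3 : 0 < δ → 0 < ε → D ≤ w / δ + w / ε) (e1 : |x - ρ| ≤ δ) (e2 : |y - ρ| ≤ ε) :
    D ≤ H u w ρ x - H u w ρ y := by
  have hx : 0 < x := by linarith
  have m1 : min (y / u) 1 ≤ min (x / u) 1 := min_le_min_right _ (by gcongr; linarith)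
  have m2 : min (w / x) 1 ≤ min (w / y) 1 := min_le_min_right _ (by gcongr; linarith)
  rw [abs_le] at e1 e2
  have c1 : x ≤ u → D ≤ 4 * (min (x / u) 1 - min (y / u) 1) := fun h => by
    rw [min_eq_left ((div_le_one hu).mpr h), min_eq_left ((div_le_one hu).mpr (by linarith)),
      ← sub_div, ← mul_div_assoc]
    exact d2.trans (by gcongr; linarith)
  have c2 : w ≤ y → x / 2 ≤ δ → y / 2 ≤ ε → D ≤ 8 * (min (w / y) 1 - min (w / x) 1) :=
    fun h h' h'' => by
      rw [min_eq_left ((div_le_one hy).mpr h), min_eq_left ((div_le_one hx).mpr (by linarith))]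
      have a1 : w / δ ≤ 2 * (w / y) := by
        rw [← mul_div_assoc, div_le_div_iff₀ (by linarith) hy]; nlinarith
      have a2 : w / ε ≤ 2 * (w / y) := by
        rw [← mul_div_assoc, div_le_div_iff₀ (by linarith) hy]; nlinarith
      have a3 : 2 * (w / x) ≤ w / y := by
        rw [← mul_div_assoc, div_le_div_iff₀ hx hy]; nlinarith
      linarith [d3 (by linarith) (by linarith)]
  have c3 : x < w → y ≤ u := fun h => by nlinarith
  have i1 : (if w ≤ y then (1:ℝ) else 0) ≤ if w ≤ x then 1 else 0 := by split_ifs <;> linarith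
  have i2 : (if u < y then (1:ℝ) else 0) ≤ if u < x then 1 else 0 := by split_ifs <;> linarith
  have i3 : (if 2 * ρ / 3 < y then (1:ℝ) else 0) ≤ if 2 * ρ / 3 < x then 1 else 0 := by
    split_ifs <;> linarith
  have i4 : (if 2 * ρ ≤ y then (1:ℝ) else 0) ≤ if 2 * ρ ≤ x then 1 else 0 := by
    split_ifs <;> linarith
  unfold H
  by_cases k1 : x ≤ u
  · linarith [c1 k1]
  by_cases k2 : x / 2 ≤ δ
  · by_cases k3 : y / 2 ≤ ε
    · by_cases k4 : w ≤ y
      · linarith [c2 k4 k2 k3]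
      · by_cases k5 : x < w
        · rw [if_neg (not_lt.mpr (c3 k5)), if_pos (not_le.mp k1)]; linarith
        · rw [if_neg k4, if_pos (not_lt.mp k5)]; linarith
    · rw [if_pos (show 2 * ρ ≤ x by linarith), if_neg (show ¬ 2 * ρ ≤ y by linarith)]; linarith
  · rw [if_pos (show 2 * ρ / 3 < x by linarith), if_neg (show ¬ 2 * ρ / 3 < y by linarith)]
    linarith

lemma tv (μ : ℕ → ℂ) (h0 : ∀ j, ‖μ j‖ = 1) (h1 : ∀ j, 0 < ‖μ j - 1‖)
    (h2 : ∀ j, ‖μ (j + 1) - 1‖ ≤ ‖μ j - 1‖ ^ 2) (h3 : ∀ j, ‖μ j - 1‖ ≤ 1 / 4)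
    (z : ℂ) (hz : 1 < ‖z‖) (k : ℕ) (hk : 1 ≤ k) :
    ‖F d fun j => (((‖z‖ - 1 : ℝ) : ℂ) / (z - μ j)) ^ k‖ ≤ 21 := by
  set s := ‖z‖ - 1 with hs
  have s0 : 0 < s := by linarith
  have k0 : (1:ℝ) ≤ k := by exact_mod_cast hk
  have hd : ∀ j, s ≤ ‖z - μ j‖ := fun j => by linarith [norm_sub_norm_le z (μ j), h0 j]
  have hne : ∀ j, z - μ j ≠ 0 := fun j => norm_pos_iff.mp (s0.trans_le (hd j))
  have hg : ∀ j, ‖(s : ℂ) / (z - μ j)‖ = s / ‖z - μ j‖ := fun j => by simp [abs_of_pos s0]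
  have g1 : ∀ j, ‖(s : ℂ) / (z - μ j)‖ ≤ 1 := fun j => by
    rw [hg, div_le_one (s0.trans_le (hd j))]; exact hd j
  have f1 : ∀ j, ‖((s : ℂ) / (z - μ j)) ^ k‖ ≤ 1 := fun j => by
    rw [norm_pow]; exact pow_le_one₀ (norm_nonneg _) (g1 j)
  set ω : ℂ := z / ‖z‖ with hω
  have hz0 : (‖z‖ : ℂ) ≠ 0 := by exact_mod_cast (by linarith : ‖z‖ ≠ 0)
  have f2 : ∀ j, 0 < ‖μ j - ω‖ → ‖((s : ℂ) / (z - μ j)) ^ k‖ ≤ √(s / k) / ‖μ j - ω‖ := by
    intro j hj
    have e : ‖z - μ j‖ ^ 2 = s ^ 2 + ‖z‖ * ‖μ j - ω‖ ^ 2 := by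
      have a1 := h0 j
      have a2 : ‖ω‖ = 1 := by rw [hω, norm_div]; simp [show z ≠ 0 by rintro rfl; norm_num at hz]
      have a3 : z = ‖z‖ * ω := by rw [hω]; field_simp
      have b1 := congrArg (· ^ 2) a1
      have b2 := congrArg (· ^ 2) a2
      simp only [Complex.sq_norm, Complex.normSq_apply] at b1 b2 ⊢
      conv_lhs => rw [a3]
      simp only [Complex.sub_re, Complex.sub_im, Complex.mul_re, Complex.mul_im, Complex.ofReal_re,
        Complex.ofReal_im, hs]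
      linear_combination (‖z‖ ^ 2 - ‖z‖) * b2 + (1 - ‖z‖) * b1
    set δ := ‖μ j - ω‖
    rw [le_div_iff₀ hj]
    refine Real.le_sqrt_of_sq_le ?_
    rw [norm_pow, mul_pow, ← pow_mul, mul_comm k, pow_mul, hg, div_pow, e]
    have b := one_add_mul_le_pow (a := δ ^ 2 / s) (by have : 0 ≤ δ ^ 2 / s := by positivity
                                                      linarith) k
    have c : s ^ 2 / (s ^ 2 + ‖z‖ * δ ^ 2) ≤ (1 + δ ^ 2 / s)⁻¹ := by
      rw [← one_div, div_le_div_iff₀ (by positivity) (by positivity)]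
      have : s ^ 2 * (1 + δ ^ 2 / s) = s ^ 2 + s * δ ^ 2 := by field_simp
      nlinarith [sq_nonneg δ]
    calc _ ≤ (1 + δ ^ 2 / s)⁻¹ ^ k * δ ^ 2 := by gcongr
      _ ≤ (k * (δ ^ 2 / s))⁻¹ * δ ^ 2 := by
          rw [inv_pow]; gcongr; linarith
      _ = _ := by field_simp
  have f3 : ∀ j, ‖((s : ℂ) / (z - μ j)) ^ k - ((s : ℂ) / (z - μ (j + 1))) ^ k‖ ≤
      (‖μ j - 1‖ + ‖μ (j + 1) - 1‖) / (s / k) := fun j => by
    have a : ‖(s : ℂ) / (z - μ j) - (s : ℂ) / (z - μ (j + 1))‖ ≤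
        (‖μ j - 1‖ + ‖μ (j + 1) - 1‖) / s := by
      have := hne j; have := hne (j + 1)
      rw [show (s : ℂ) / (z - μ j) - (s : ℂ) / (z - μ (j + 1)) =
        (s : ℂ) / (z - μ j) * ((μ j - 1 - (μ (j + 1) - 1)) / (z - μ (j + 1))) by field_simp; ring,
        norm_mul, norm_div (μ j - 1 - _)]
      refine (mul_le_of_le_one_left (by positivity) (g1 j)).trans ?_
      gcongr
      exacts [norm_sub_le _ _, hd _]
    rw [← (Commute.all _ _).mul_geom_sum₂, norm_mul, div_div_eq_mul_div, mul_div_right_comm]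
    refine mul_le_mul a ((norm_sum_le _ _).trans ?_) (norm_nonneg _) (by positivity)
    refine (sum_le_card_nsmul _ _ 1 fun i _ => ?_).trans (by simp)
    rw [norm_mul, norm_pow, norm_pow]
    exact mul_le_one₀ (pow_le_one₀ (norm_nonneg _) (g1 _)) (by positivity)
      (pow_le_one₀ (norm_nonneg _) (g1 _))
  have u0 : 0 < s / k := by positivity
  have key := sum_le_sum (s := range d) fun j _ => step (ρ := ‖ω - 1‖) u0 (Real.sqrt_pos.mpr u0)
    (Real.sq_sqrt u0.le).symm (h1 (j + 1)) (h2 j) (by nlinarith [h2 j, h3 j, h1 j])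
    ((norm_sub_le _ _).trans (by linarith [f1 j, f1 (j + 1)])) (f3 j)
    (fun a b => (norm_sub_le _ _).trans (add_le_add (f2 j a) (f2 (j + 1) b)))
    (by simpa using abs_norm_sub_norm_le (μ j - 1) (ω - 1))
    (by simpa using abs_norm_sub_norm_le (μ (j + 1) - 1) (ω - 1))
  rw [sum_range_sub' fun j => H (s / k) √(s / k) ‖ω - 1‖ ‖μ j - 1‖] at key
  have hH : ∀ x, 0 ≤ x → -8 ≤ H (s / k) √(s / k) ‖ω - 1‖ x ∧ H (s / k) √(s / k) ‖ω - 1‖ x ≤ 12 := by
    intro x hx
    have a1 : 0 ≤ min (x / (s / k)) 1 := by positivity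
    have a2 : 0 ≤ min (√(s / k) / x) 1 := by positivity
    have a3 := min_le_right (x / (s / k)) 1
    have a4 := min_le_right (√(s / k) / x) 1
    unfold H
    constructor <;> split_ifs <;> linarith
  linarith [norm_F (d := d) fun j => ((s : ℂ) / (z - μ j)) ^ k, f1 d, hH _ (h1 0).le,
    hH _ (h1 d).le]

/-- exponents -/
def e : ℕ → ℕ
  | 0 => 4
  | j + 1 => 2 * e j + 1

/-- eigenvalues -/
noncomputable def mu (j : ℕ) : ℂ :=
  Complex.exp (Complex.I * ((if Even j then 2 else 1) * Real.pi / 3 ^ e j : ℝ))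

lemma mu_bound (j : ℕ) : 2 / 3 ^ e j ≤ ‖mu j - 1‖ ∧ ‖mu j - 1‖ ≤ 7 / 3 ^ e j := by
  have he : 4 ≤ e j := by induction j <;> simp only [e] <;> omega
  have h3 : (81:ℝ) ≤ 3 ^ e j := le_trans (by norm_num) (pow_le_pow_right₀ (by norm_num) he)
  have hp := Real.pi_pos
  have hp' := Real.pi_lt_d2
  set c : ℝ := if Even j then 2 else 1 with hc
  have c1 : 1 ≤ c ∧ c ≤ 2 := by rw [hc]; split_ifs <;> norm_num
  have t0 : 0 ≤ c * Real.pi / 3 ^ e j := by have := c1.1; positivity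
  constructor
  · rw [mu, Complex.norm_exp_I_mul_ofReal_sub_one]
    have := Real.mul_le_sin (x := c * Real.pi / 3 ^ e j / 2) (by linarith) (by
      gcongr; rw [div_le_iff₀ (by positivity)]; nlinarith)
    rw [show 2 / Real.pi * (c * Real.pi / 3 ^ e j / 2) = c / 3 ^ e j by field_simp] at this
    have h : 1 / 3 ^ e j ≤ c / 3 ^ e j := by gcongr; exact c1.1
    refine le_trans ?_ (le_abs_self _)
    rw [show (2:ℝ) / 3 ^ e j = 2 * (1 / 3 ^ e j) by ring]
    linarith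
  · refine Real.norm_exp_I_mul_ofReal_sub_one_le.trans ?_
    rw [Real.norm_of_nonneg t0]
    gcongr; nlinarith

lemma mu_pow {j n : ℕ} (h : j ≤ n) : mu j ^ 3 ^ e n = (-1) ^ j := by
  have hm : e j ≤ e n := monotone_nat_of_le_succ (f := e) (fun j => by simp only [e]; omega) h
  obtain ⟨t, ht⟩ := Nat.exists_eq_add_of_le hm
  rw [ht, pow_add, pow_mul, mu, ← Complex.exp_nat_mul]
  split_ifs with hj
  · rw [hj.neg_one_pow, show ((3 ^ e j : ℕ) : ℂ) * _ = 2 * Real.pi * Complex.I by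
      push_cast; field_simp, Complex.exp_two_pi_mul_I, one_pow]
  · rw [(Nat.not_even_iff_odd.mp hj).neg_one_pow, show ((3 ^ e j : ℕ) : ℂ) * _ =
      Real.pi * Complex.I by push_cast; field_simp, Complex.exp_pi_mul_I,
      (Odd.pow (by decide)).neg_one_pow]

theorem result : ∃ M : ℝ, 1 ≤ M ∧ ∀ d : ℕ, 1 ≤ d → ∃ T : (Fin d → ℂ) →L[ℂ] (Fin d → ℂ),
    (∀ z : ℂ, 1 < ‖z‖ → z ∈ resolventSet ℂ T ∧
      ∀ k : ℕ, 1 ≤ k → ‖resolvent T z ^ k‖ ≤ M / (‖z‖ - 1) ^ k) ∧
    ∃ n : ℕ, 1 ≤ n ∧ (d : ℝ) ≤ ‖T ^ n‖ := by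
  refine ⟨21, by norm_num, fun d hd => ⟨F d mu, fun z hz => ?_, 3 ^ e d, Nat.one_le_pow _ _
    (by norm_num), ?_⟩⟩
  · have h0 : ∀ j, ‖mu j‖ = 1 := fun j => by rw [mu, mul_comm, Complex.norm_exp_ofReal_mul_I]
    have hne : ∀ j, z - mu j ≠ 0 := fun j h => by
      rw [sub_eq_zero] at h; rw [h, h0] at hz; exact lt_irrefl _ hz
    have f1 : (algebraMap ℂ _ z - F d mu) * F d (fun j => (z - mu j)⁻¹) = 1 := ext_v fun j hj => by
      simp [F_v _ hj, Algebra.algebraMap_eq_smul_one, ← sub_smul, smul_smul, hne]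
    have f2 : F d (fun j => (z - mu j)⁻¹) * (algebraMap ℂ _ z - F d mu) = 1 := ext_v fun j hj => by
      simp [F_v _ hj, Algebra.algebraMap_eq_smul_one, ← sub_smul, smul_smul, hne]
    have hu : IsUnit (algebraMap ℂ _ z - F d mu) := ⟨⟨_, _, f1, f2⟩, rfl⟩
    refine ⟨hu, fun k hk => ?_⟩
    have hr : resolvent (F d mu) z = F d (fun j => (z - mu j)⁻¹) := by
      rw [resolvent, ← one_mul (Ring.inverse _), ← f2, mul_assoc, Ring.mul_inverse_cancel _ hu,
        mul_one]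
    have := tv (d := d) mu h0 (fun j => lt_of_lt_of_le (by positivity) (mu_bound j).1)
      (fun j => (mu_bound _).2.trans (le_trans (by
        rw [e, div_pow, pow_succ, pow_mul', div_le_div_iff₀ (by positivity) (by positivity)]
        nlinarith [sq_nonneg ((3:ℝ) ^ e j)]) (pow_le_pow_left₀ (by positivity) (mu_bound j).1 2)))
      (fun j => (mu_bound j).2.trans (by
        have he : 4 ≤ e j := by induction j <;> simp only [e] <;> omega
        have h3 : (81:ℝ) ≤ 3 ^ e j := le_trans (by norm_num) (pow_le_pow_right₀ (by norm_num) he)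
        rw [div_le_div_iff₀ (by positivity) (by norm_num)]; linarith)) z hz k hk
    have hp : 0 < ‖z‖ - 1 := by linarith
    rw [show F d (fun j => (((‖z‖ - 1 : ℝ) : ℂ) / (z - mu j)) ^ k) =
      ((‖z‖ - 1 : ℝ) : ℂ) ^ k • resolvent (F d mu) z ^ k from ext_v fun j hj => by
        rw [hr, smul_apply, F_pow _ _ hj, F_v _ hj, smul_smul, ← mul_pow,
          div_eq_mul_inv], norm_smul, norm_pow, Complex.norm_real, Real.norm_of_nonneg hp.le]
      at this
    rwa [le_div_iff₀' (by positivity)]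
  · rw [show F d mu ^ 3 ^ e d = F d fun j => (-1) ^ j from ext_v fun j hj => by
      rw [F_pow _ _ hj, F_v _ hj, mu_pow hj.le]]
    obtain ⟨n, rfl⟩ := Nat.exists_eq_add_of_le' hd
    have h1 := (F (n + 1) fun j => (-1) ^ j).le_opNorm fun k => (-1) ^ k.1
    have h2 : ‖fun k : Fin (n + 1) => (-1 : ℂ) ^ k.1‖ ≤ 1 :=
      (pi_norm_le_iff_of_nonneg zero_le_one).mpr fun k => by simp
    have h3 := norm_le_pi_norm (F (n + 1) (fun j => (-1) ^ j) fun k => (-1) ^ k.1) (Fin.last n)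
    have h4 : F (n + 1) (fun j => (-1) ^ j) (fun k => (-1) ^ k.1) (Fin.last n) =
        ((2 * n + 1 : ℝ) : ℂ) := by
      have : ∀ i : ℕ, ((-1 : ℂ) ^ i) * (-1) ^ i = 1 := fun i => by rw [← mul_pow]; simp
      simp only [F, Q, add_apply, _root_.sum_apply,
        smul_apply, Pi.add_apply, Finset.sum_apply, Pi.smul_apply,
        ContinuousLinearMap.pi_apply, ContinuousLinearMap.proj_apply, smul_eq_mul,
        one_apply_eq_self, Fin.val_last]
      rw [sum_congr rfl (g := fun _ => 2) fun i hi => by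
        rw [min_eq_right (by simpa [Nat.lt_succ_iff] using hi), pow_succ]
        linear_combination 2 * this i, pow_succ]
      simp only [sum_const, card_range, nsmul_eq_mul]
      push_cast
      linear_combination -this n
    rw [h4, Complex.norm_real, Real.norm_of_nonneg (by positivity)] at h3
    push_cast
    nlinarith [norm_nonneg (F (n + 1) fun j => (-1 : ℂ) ^ j), (Nat.cast_nonneg n : (0:ℝ) ≤ n)]

end Pool.Agent.Results.MP_389529_an.LinearGrowth
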